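import Mathlib
import Pool.Agent.H19.Kry

set_option autoImplicit false

namespace Pool.Agent.Results.MP_1abb56_al.Counterexample

/-- The `p`-height of `x`: the supremum of the `n` with `x ∈ pⁿG`. -/
noncomputable def height {G : Type} [AddCommGroup G] (p : ℕ) (x : G) : ℕ∞ :=
  ⨆ (n : ℕ) (_ : ∃ y : G, p ^ n • y = x), (n : ℕ∞)

def Transitive (G : Type) [AddCommGroup G] : Prop :=
  ∀ x y : G, (∀ p : ℕ, p.Prime → height p x = height p y) → ∃ η : G ≃+ G, η x = y

def KrylovTransitive (G : Type) [AddCommGroup G] : Prop :=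
  ∀ x y : G, (∀ p : ℕ, p.Prime → height p x = height p y) → ∃ φ : G →+ G, φ x = y

def WeaklyTransitive (G : Type) [AddCommGroup G] : Prop :=
  ∀ x y : G, (∃ φ : G →+ G, φ x = y) → (∃ ψ : G →+ G, ψ y = x) → ∃ η : G ≃+ G, η x = y

lemma le_height {G : Type} [AddCommGroup G] (p n : ℕ) (x : G) :
    (∃ y : G, p ^ n • y = x) ↔ (n : ℕ∞) ≤ height p x := by
  refine ⟨fun h => le_iSup₂_of_le n h le_rfl, fun h => ?_⟩
  cases n with
  | zero => exact ⟨x, by simp⟩
  | succ n =>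
    obtain ⟨m, hm⟩ := lt_iSup_iff.mp (lt_of_lt_of_le (by exact_mod_cast n.lt_succ_self) h :
      (n : ℕ∞) < height p x)
    obtain ⟨⟨y, hy⟩, h1⟩ := lt_iSup_iff.mp hm
    obtain ⟨k, rfl⟩ := Nat.exists_eq_add_of_le (show n + 1 ≤ m by exact_mod_cast h1)
    exact ⟨p ^ k • y, by rw [smul_smul, ← pow_add, hy]⟩

open Pool.Agent.H19.Kry in
/-- A torsion-free group that is transitive, Krylov transitive and weakly transitive, whose square
is not weakly transitive. -/
theorem result : ∃ (G : Type) (_ : AddCommGroup G),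
    (∀ (n : ℤ) (x : G), n ≠ 0 → n • x = 0 → x = 0) ∧
    Transitive G ∧ KrylovTransitive G ∧ WeaklyTransitive G ∧ ¬ WeaklyTransitive (G × G) := by
  have aut : ∀ x y : G, y = x ∨ y = -x → ∃ η : G ≃+ G, η x = y := by
    rintro x y (rfl | rfl)
    exacts [⟨AddEquiv.refl _, rfl⟩, ⟨AddEquiv.neg _, rfl⟩]
  have tr : Transitive G := fun x y h => aut x y (main x y fun p hp k => by
    rw [le_height, le_height, h p hp])
  refine ⟨G, inferInstance, fun n x hn h => ?_, tr, fun x y h => ?_, ?_, fun h => ?_⟩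
  · have h1 : n • x.1 = 0 := congrArg Subtype.val h
    exact Subtype.ext ((smul_eq_zero.mp h1).resolve_left hn)
  · obtain ⟨η, hη⟩ := tr x y h
    exact ⟨η, hη⟩
  · rintro x y ⟨φ, h1⟩ ⟨ψ, h2⟩
    exact aut x y (main x y fun p hp k =>
      ⟨fun ⟨z, hz⟩ => ⟨φ z, by rw [← map_nsmul, hz, h1]⟩,
        fun ⟨z, hz⟩ => ⟨ψ z, by rw [← map_nsmul, hz, h2]⟩⟩)
  · obtain ⟨η, hη⟩ := h (5, t) (5, 2 * t)
      ⟨(AddMonoidHom.id _).prodMap (AddMonoidHom.mulLeft 2), rfl⟩
      ⟨(AddMonoidHom.fst _ _).prod ((AddMonoidHom.mulLeft (-t)).coprod (AddMonoidHom.mulLeft 3)),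
        Prod.ext rfl (show -t * 5 + 3 * (2 * t) = t by ring)⟩
    exact no_aut η hη

end Pool.Agent.Results.MP_1abb56_al.Counterexample
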